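import Pool.Agent.TH782.ProjAlg

set_option autoImplicit false

/-!
# There is no universal countable projective algebra of plane sets
-/

namespace Pool.Agent.Results.MP_3db952_lc.NoUniversal

open Pool.Agent.TH782.ProjAlg

/-- The projective algebra `F` embeds in the projective algebra `U`: there is an injective map
from `F` to `U` that commutes with the operations (so `F` is isomorphic to the subalgebra of `U`
that is the range of this map). -/
def Embeds (F U : Set (Set (ℝ × ℝ))) : Prop :=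
  ∃ φ : F → Set (ℝ × ℝ), (∀ A, φ A ∈ U) ∧ Function.Injective φ ∧ IsHom φ

/-- The smallest projective algebra containing the plane set `s`. -/
def gen (s : Set (ℝ × ℝ)) : Set (Set (ℝ × ℝ)) := ⋂₀ {F | IsProjAlg F ∧ s ∈ F}

theorem isProjAlg_gen (s : Set (ℝ × ℝ)) : IsProjAlg (gen s) := by
  constructor
  · intro A hA F hF
    exact hF.1.compl _ (hA F hF)
  · intro A hA B hB F hF
    exact hF.1.union _ (hA F hF) _ (hB F hF)
  · intro A hA F hF
    exact hF.1.pi1 _ (hA F hF)
  · intro A hA F hF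
    exact hF.1.pi2 _ (hA F hF)
  · intro A hA B hB h1 h2 F hF
    exact hF.1.tens _ (hA F hF) _ (hB F hF) h1 h2

theorem mem_gen (s : Set (ℝ × ℝ)) : s ∈ gen s := fun _ hF => hF.2

/-- One step of the generation process. -/
def step (F : Set (Set (ℝ × ℝ))) : Set (Set (ℝ × ℝ)) :=
  F ∪ (compl '' F ∪ Set.image2 (· ∪ ·) F F ∪ pi1 '' F ∪ pi2 '' F ∪ Set.image2 tens F F)

theorem step_countable {F : Set (Set (ℝ × ℝ))} (h : F.Countable) : (step F).Countable :=
  h.union (((((h.image _).union (h.image2 h _)).union (h.image _)).union (h.image _)).union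
    (h.image2 h _))

/-- The stages. -/
def stage (s : Set (ℝ × ℝ)) : ℕ → Set (Set (ℝ × ℝ))
  | 0 => {s}
  | n + 1 => step (stage s n)

theorem stage_mono (s : Set (ℝ × ℝ)) {m n : ℕ} (h : m ≤ n) : stage s m ⊆ stage s n := by
  induction n with
  | zero => rw [Nat.le_zero.mp h]
  | succ n ih =>
    rcases Nat.lt_or_ge m (n + 1) with h1 | h1
    · exact (ih (Nat.lt_succ_iff.mp h1)).trans Set.subset_union_left
    · rw [Nat.le_antisymm h h1]

theorem gen_countable (s : Set (ℝ × ℝ)) : (gen s).Countable := by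
  have h1 : (⋃ n, stage s n).Countable := by
    apply Set.countable_iUnion
    intro n
    induction n with
    | zero => exact Set.countable_singleton s
    | succ n ih => exact step_countable ih
  refine h1.mono (Set.sInter_subset_of_mem ⟨⟨?_, ?_, ?_, ?_, ?_⟩, ?_⟩)
  · intro A hA
    obtain ⟨n, hn⟩ := Set.mem_iUnion.1 hA
    exact Set.mem_iUnion.2 ⟨n + 1, Or.inr (Or.inl (Or.inl (Or.inl (Or.inl ⟨A, hn, rfl⟩))))⟩
  · intro A hA B hB
    obtain ⟨n, hn⟩ := Set.mem_iUnion.1 hA
    obtain ⟨m, hm⟩ := Set.mem_iUnion.1 hB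
    exact Set.mem_iUnion.2 ⟨max n m + 1, Or.inr (Or.inl (Or.inl (Or.inl (Or.inr
      ⟨A, stage_mono s (le_max_left _ _) hn, B, stage_mono s (le_max_right _ _) hm, rfl⟩))))⟩
  · intro A hA
    obtain ⟨n, hn⟩ := Set.mem_iUnion.1 hA
    exact Set.mem_iUnion.2 ⟨n + 1, Or.inr (Or.inl (Or.inl (Or.inr ⟨A, hn, rfl⟩)))⟩
  · intro A hA
    obtain ⟨n, hn⟩ := Set.mem_iUnion.1 hA
    exact Set.mem_iUnion.2 ⟨n + 1, Or.inr (Or.inl (Or.inr ⟨A, hn, rfl⟩))⟩
  · intro A hA B hB _ _
    obtain ⟨n, hn⟩ := Set.mem_iUnion.1 hA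
    obtain ⟨m, hm⟩ := Set.mem_iUnion.1 hB
    exact Set.mem_iUnion.2 ⟨max n m + 1, Or.inr (Or.inr
      ⟨A, stage_mono s (le_max_left _ _) hn, B, stage_mono s (le_max_right _ _) hm, rfl⟩)⟩
  · exact Set.mem_iUnion.2 ⟨0, rfl⟩

/-- For every countable projective algebra `U` of plane sets there is a countable projective
algebra that does not embed in `U`. In particular there is no universal countable projective
algebra. -/
theorem result (U : Set (Set (ℝ × ℝ))) (_ : IsProjAlg U) (hc : U.Countable) :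
    ∃ F : Set (Set (ℝ × ℝ)), IsProjAlg F ∧ F.Countable ∧ ¬ Embeds F U := by
  by_contra hcon
  push Not at hcon
  have h1 : (code '' U).Countable := hc.image code
  have h2 : code '' U = Set.univ := by
    rw [Set.eq_univ_iff_forall]
    intro Z
    obtain ⟨φ, hφU, hinj, hφ⟩ := hcon (gen (SZ Z)) (isProjAlg_gen _) (gen_countable _)
    refine ⟨_, hφU ⟨SZ Z, mem_gen _⟩, ?_⟩
    rw [code_eq (isProjAlg_gen _) hφ hinj ⟨SZ Z, mem_gen _⟩]
    exact code_SZ Z
  rw [h2] at h1
  have h3 : Countable (Set ℕ) := Set.countable_univ_iff.1 h1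
  have h4 := Cardinal.mk_le_aleph0 (α := Set ℕ)
  rw [Cardinal.mk_set, Cardinal.mk_nat] at h4
  exact absurd h4 (not_le.2 (Cardinal.cantor _))

end Pool.Agent.Results.MP_3db952_lc.NoUniversal
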